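import Mathlib
import Pool.Agent.X152.DS.Card

set_option autoImplicit false

/-!
# MP_649c59_nt: moving targets in the inhomogeneous Duffin–Schaeffer problem

Under comparability of `∑ ψ` and `∑ φψ/q` at infinitely many `Q`: full measure, even with coprime
numerators,
(1) for arbitrary real moving targets when `ψ` is bounded and a gcd-sum condition holds at
infinitely many such `Q`;
(2) for arbitrary real moving targets when `ψ` is bounded and its support up to such `Q` has at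
most `C (∑ φψ/q)²` elements;
(3) for all `ψ` when the targets are rational with denominators dividing a fixed `V`.
-/

namespace Pool.Agent.Results.MP_649c59_nt.RealMovingTargets

open MeasureTheory Filter

theorem result :
    (∀ y : ℕ → ℝ, ∀ ψ : ℕ → ℝ, (∀ q, 0 ≤ ψ q) → (∃ B : ℝ, ∀ q, ψ q ≤ B) →
      ¬ Summable (fun q : ℕ => (Nat.totient q : ℝ) * ψ q / (q : ℝ)) →
      (∃ c C : ℝ, 0 < c ∧ ∃ᶠ Q : ℕ in atTop,
          c * (∑ q ∈ Finset.Icc 1 Q, ψ q) ≤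
            ∑ q ∈ Finset.Icc 1 Q, (Nat.totient q : ℝ) * ψ q / (q : ℝ) ∧
          ∑ r ∈ (Finset.Icc 1 Q).filter (fun r : ℕ => c / 2 * (r : ℝ) ≤ (Nat.totient r : ℝ)),
            ∑ q ∈ (Finset.Icc 1 Q).filter
                (fun q : ℕ => c / 2 * (q : ℝ) ≤ (Nat.totient q : ℝ) ∧ q < r),
              (Nat.gcd q r : ℝ) * min (ψ q / (q : ℝ)) (ψ r / (r : ℝ)) ≤
            C * (∑ q ∈ Finset.Icc 1 Q, (Nat.totient q : ℝ) * ψ q / (q : ℝ)) ^ 2) →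
      volume {x : ℝ | x ∈ Set.Icc (0 : ℝ) 1 ∧
          ∃ᶠ q : ℕ in atTop, ∃ a : ℤ, Int.gcd a (q : ℤ) = 1 ∧
            |(q : ℝ) * x - (a : ℝ) - y q| < ψ q} = 1) ∧
    (∀ y : ℕ → ℝ, ∀ ψ : ℕ → ℝ, (∀ q, 0 ≤ ψ q) → (∃ B : ℝ, ∀ q, ψ q ≤ B) →
      ¬ Summable (fun q : ℕ => (Nat.totient q : ℝ) * ψ q / (q : ℝ)) →
      (∃ c C : ℝ, 0 < c ∧ ∃ᶠ Q : ℕ in atTop,
          c * (∑ q ∈ Finset.Icc 1 Q, ψ q) ≤
            ∑ q ∈ Finset.Icc 1 Q, (Nat.totient q : ℝ) * ψ q / (q : ℝ) ∧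
          (((Finset.Icc 1 Q).filter (fun q : ℕ => 0 < ψ q)).card : ℝ) ≤
            C * (∑ q ∈ Finset.Icc 1 Q, (Nat.totient q : ℝ) * ψ q / (q : ℝ)) ^ 2) →
      volume {x : ℝ | x ∈ Set.Icc (0 : ℝ) 1 ∧
          ∃ᶠ q : ℕ in atTop, ∃ a : ℤ, Int.gcd a (q : ℤ) = 1 ∧
            |(q : ℝ) * x - (a : ℝ) - y q| < ψ q} = 1) ∧
    (∀ V : ℕ, 0 < V → ∀ y : ℕ → ℚ, (∀ q, (y q).den ∣ V) →
      ∀ ψ : ℕ → ℝ, (∀ q, 0 ≤ ψ q) →
      ¬ Summable (fun q : ℕ => (Nat.totient q : ℝ) * ψ q / (q : ℝ)) →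
      (∃ c : ℝ, 0 < c ∧ ∃ᶠ Q : ℕ in atTop,
          c * (∑ q ∈ Finset.Icc 1 Q, ψ q) ≤
            ∑ q ∈ Finset.Icc 1 Q, (Nat.totient q : ℝ) * ψ q / (q : ℝ)) →
      volume {x : ℝ | x ∈ Set.Icc (0 : ℝ) 1 ∧
          ∃ᶠ q : ℕ in atTop, ∃ a : ℤ, Int.gcd a (q : ℤ) = 1 ∧
            |(q : ℝ) * x - (a : ℝ) - (y q : ℝ)| < ψ q} = 1) := by
  refine ⟨?_, ?_, ?_⟩
  · intro y ψ hψ hbd hdiv hcomp
    exact Pool.Agent.X152.DS.thm_gcd y ψ hψ hbd hdiv hcomp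
  · intro y ψ hψ hbd hdiv hcomp
    exact Pool.Agent.X152.DS.thm_card y ψ hψ hbd hdiv hcomp
  · intro V hV y hy ψ hψ hdiv hcomp
    exact Pool.Agent.X152.DS.thm_rat V hV y hy ψ hψ hdiv hcomp

end Pool.Agent.Results.MP_649c59_nt.RealMovingTargets
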